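import Pool.Agent.H64.FTM.Targets2
import Pool.Agent.H2.NL.Basic

/-!
# From `Tau` to tautological correspondences: row WPU
-/

set_option autoImplicit false
set_option linter.unusedSectionVars false

open Matrix Pool.Agent.H64.CC Pool.Agent.H2.NL Pool.Agent.H2.KM Pool.Agent.H64.EV Pool.Agent.H64.FTM
open Pool.Agent.H64.EK hiding kap

namespace Pool.Agent.H85.FTM.WPUaux

section general

variable {K : Type} [Field K] {I J : Type} [Fintype I] [DecidableEq I] [Fintype J]
  [DecidableEq J] (j : Matrix I J K)

theorem pf_consw (t : List J → K) (a : I) (w : List I) :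
    pf j t (a :: w) = ∑ b, j a b * pf j (fun l => t (b :: l)) w := rfl

theorem pf_lin {M : Type} [Fintype M] (w : List I) (c : M → K) (g : M → List J → K) :
    pf j (fun l => ∑ m, c m * g m l) w = ∑ m, c m * pf j (g m) w := by
  induction w generalizing g with
  | nil => rfl
  | cons a w ih =>
    rw [pf_consw]
    have h : ∀ b : J, pf j (fun l => ∑ m, c m * g m (b :: l)) w =
        ∑ m, c m * pf j (fun l => g m (b :: l)) w := fun b => ih fun m l => g m (b :: l)
    simp only [h, Finset.mul_sum, pf_consw]
    rw [Finset.sum_comm]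
    exact Finset.sum_congr rfl fun m _ => Finset.sum_congr rfl fun b _ => by ring

theorem pf_congrw (n : ℕ) : ∀ t t' : List J → K, (∀ w : List J, w.length = n → t w = t' w) →
    ∀ w : List I, w.length = n → pf j t w = pf j t' w := by
  induction n with
  | zero =>
    intro t t' h w hw
    rw [List.length_eq_zero_iff] at hw
    subst hw
    exact h [] rfl
  | succ n ih =>
    intro t t' h w hw
    match w, hw with
    | a :: w, hw =>
      rw [pf_consw, pf_consw]
      refine Finset.sum_congr rfl fun b _ => ?_
      rw [ih (fun l => t (b :: l)) (fun l => t' (b :: l))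
        (fun v hv => h (b :: v) (by rw [List.length_cons, hv])) w (by simpa using hw)]

theorem pf_neg (t : List J → K) (w : List I) : pf j (-t) w = - pf j t w := by
  have h := pf_smul j (-1 : K) w t
  rw [neg_smul, one_smul, neg_one_mul] at h
  exact h

theorem pf_zerow (w : List I) : pf j (0 : List J → K) w = 0 := by
  have h := pf_smul j (0 : K) w (0 : List J → K)
  rw [zero_smul, zero_mul] at h
  exact h

theorem atp_lin (f : Matrix I I K) {M : Type} [Fintype M] (q : ℕ) :
    ∀ (c : M → K) (g : M → List I → K) (w : List I),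
    atp f q (fun l => ∑ m, c m * g m l) w = ∑ m, c m * atp f q (g m) w := by
  induction q with
  | zero =>
    intro c g w
    match w with
    | [] =>
      show (0 : K) = ∑ m, c m * 0
      simp
    | a :: w =>
      show ∑ b, f a b * ∑ m, c m * g m (b :: w) = ∑ m, c m * ∑ b, f a b * g m (b :: w)
      simp only [Finset.mul_sum]
      rw [Finset.sum_comm]
      exact Finset.sum_congr rfl fun m _ => Finset.sum_congr rfl fun b _ => by ring
  | succ q ih =>
    intro c g w
    match w with
    | [] =>
      show (0 : K) = ∑ m, c m * 0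
      simp
    | a :: w => exact ih c (fun m l => g m (a :: l)) w

theorem atp_pf (f : Matrix I I K) (D : Matrix J J K) (h : f * j = j * D) (q : ℕ) :
    ∀ (t : List J → K) (w : List I), atp f q (pf j t) w = pf j (atp D q t) w := by
  induction q with
  | zero =>
    intro t w
    match w with
    | [] => rfl
    | a :: w =>
      have e1 : atp f 0 (pf j t) (a :: w) =
          ∑ c, (f * j) a c * pf j (fun l => t (c :: l)) w := by
        show ∑ b, f a b * ∑ c, j b c * pf j (fun l => t (c :: l)) w = _
        simp only [Matrix.mul_apply, Finset.mul_sum, Finset.sum_mul]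
        rw [Finset.sum_comm]
        exact Finset.sum_congr rfl fun c _ => Finset.sum_congr rfl fun b _ => by ring
      have e2 : pf j (atp D 0 t) (a :: w) =
          ∑ c, (j * D) a c * pf j (fun l => t (c :: l)) w := by
        have e3 : ∀ b : J, pf j (fun l => atp D 0 t (b :: l)) w =
            ∑ c, D b c * pf j (fun l => t (c :: l)) w := fun b =>
          pf_lin j w (fun c => D b c) (fun c l => t (c :: l))
        rw [pf_consw]
        simp only [e3, Matrix.mul_apply, Finset.mul_sum, Finset.sum_mul]
        rw [Finset.sum_comm]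
        exact Finset.sum_congr rfl fun c _ => Finset.sum_congr rfl fun b _ => by ring
      rw [e1, e2, h]
  | succ q ih =>
    intro t w
    match w with
    | [] => rfl
    | a :: w =>
      have e1 : atp f (q + 1) (pf j t) (a :: w) =
          ∑ b, j a b * atp f q (pf j (fun l => t (b :: l))) w :=
        atp_lin f q (fun b => j a b) (fun b => pf j (fun l => t (b :: l))) w
      rw [e1, pf_consw]
      exact Finset.sum_congr rfl fun b _ => by rw [ih]; rfl

theorem sws_congr (o : I → Bool) (n : ℕ) (t t' : List I → K)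
    (h : ∀ w : List I, w.length = n → t w = t' w) (js : List ℕ) (hjs : ∀ q ∈ js, q + 2 ≤ n) :
    ∀ w : List I, w.length = n → sws o js t w = sws o js t' w := by
  induction js with
  | nil => exact h
  | cons q js ih =>
    intro w hw
    exact sw_congr o q n _ _ (ih fun q' hq' => hjs q' (List.mem_cons_of_mem _ hq'))
      (hjs q List.mem_cons_self) w hw

end general

section two

variable {K : Type} [Field K] {J E : Type} [Fintype J] [DecidableEq J] [Fintype E]
  [DecidableEq E]

theorem atp_D (u : List (J ⊕ E)) : ∀ (t : List (J ⊕ E) → K) (x : J ⊕ E) (v : List (J ⊕ E)),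
    atp (Matrix.fromBlocks (0 : Matrix J J K) 0 0 (1 : Matrix E E K)) u.length t (u ++ x :: v) =
      if x.isRight = true then t (u ++ x :: v) else 0 := by
  induction u with
  | nil =>
    intro t x v
    show ∑ b, Matrix.fromBlocks (0 : Matrix J J K) 0 0 (1 : Matrix E E K) x b * t (b :: v) = _
    rcases x with x | x
    · rw [if_neg (by simp)]
      refine Finset.sum_eq_zero fun b _ => ?_
      rcases b with b | b
      · rw [Matrix.fromBlocks_apply₁₁, Matrix.zero_apply, zero_mul]
      · rw [Matrix.fromBlocks_apply₁₂, Matrix.zero_apply, zero_mul]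
    · rw [if_pos (by simp), Finset.sum_eq_single (Sum.inr x)]
      · rw [Matrix.fromBlocks_apply₂₂, Matrix.one_apply_eq, one_mul]
        rfl
      · intro b _ hb
        rcases b with b | b
        · rw [Matrix.fromBlocks_apply₂₁, Matrix.zero_apply, zero_mul]
        · rw [Matrix.fromBlocks_apply₂₂, Matrix.one_apply_ne (fun h => hb (by rw [h])), zero_mul]
      · intro h
        exact absurd (Finset.mem_univ _) h
  | cons a u ih =>
    intro t x v
    exact ih (fun l => t (a :: l)) x v

theorem exists_letter {I : Type} (q : ℕ) (w : List I) (h : q < w.length) :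
    ∃ (u : List I) (x : I) (v : List I), u.length = q ∧ w = u ++ x :: v ∧ w[q]? = some x := by
  induction q generalizing w with
  | zero =>
    match w, h with
    | x :: v, _ => exact ⟨[], x, v, rfl, rfl, rfl⟩
  | succ q ih =>
    match w, h with
    | y :: w, h =>
      obtain ⟨u, x, v, hu, hw, hx⟩ := ih w (by simpa using h)
      exact ⟨y :: u, x, v, by simp [hu], by simp [hw], by simpa using hx⟩

theorem atp_Ty0 (n : ℕ) (t : List (J ⊕ E) → K) (ht : Ty n 0 t) (q : ℕ) (hq : q < n)
    (w : List (J ⊕ E)) (hw : w.length = n) :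
    atp (Matrix.fromBlocks (0 : Matrix J J K) 0 0 (1 : Matrix E E K)) q t w = t w := by
  obtain ⟨u, x, v, hu, hwe, hx⟩ := exists_letter q w (by omega)
  have h1 := atp_D (K := K) u t x v
  rw [hu, ← hwe] at h1
  rw [h1]
  by_cases h0 : t w = 0
  · rw [h0, ite_self]
  · obtain ⟨u', v', hu', hw'⟩ := ht w hw h0
    rw [List.length_eq_zero_iff] at hu'
    subst hu'
    rw [List.map_nil, List.nil_append] at hw'
    have h2 : x ∈ w := by
      rw [hwe]
      simp
    rw [hw'] at h2
    obtain ⟨e, _, rfl⟩ := List.mem_map.1 h2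
    rw [if_pos (by simp)]

theorem atp_Tyb (n b : ℕ) (t : List (J ⊕ E) → K) (ht : Ty n b t) (q : ℕ) (hq : q < n)
    (w : List (J ⊕ E)) (hw : w.length = n) :
    atp (Matrix.fromBlocks (0 : Matrix J J K) 0 0 (1 : Matrix E E K)) q t w =
      if q < b then 0 else t w := by
  obtain ⟨u, x, v, hu, hwe, hx⟩ := exists_letter q w (by omega)
  have h1 := atp_D (K := K) u t x v
  rw [hu, ← hwe] at h1
  rw [h1]
  by_cases h0 : t w = 0
  · rw [h0, ite_self, ite_self]
  · obtain ⟨u', v', hu', hw'⟩ := ht w hw h0
    rw [hw'] at hx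
    by_cases hqb : q < b
    · rw [if_pos hqb]
      rw [List.getElem?_append_left (by rw [List.length_map]; omega)] at hx
      have h2 := List.mem_of_getElem? hx
      obtain ⟨e, _, rfl⟩ := List.mem_map.1 h2
      rw [if_neg (by simp)]
    · rw [if_neg hqb]
      rw [List.getElem?_append_right (by rw [List.length_map]; omega)] at hx
      have h2 := List.mem_of_getElem? hx
      obtain ⟨e, _, rfl⟩ := List.mem_map.1 h2
      rw [if_pos (by simp)]

end two

section weil

variable {K : Type} [Field K] [CharZero K] {W : Weil K} {m : ℕ} {T : W.Var m}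

theorem oper_congr (P : W.Powers T) (k : ℕ) (t t' : List (Fin (W.rk T)) → K)
    (h : ∀ w, w.length = 2 * k → t w = t' w) : P.oper k t = P.oper k t' := by
  unfold Weil.PowerData.oper
  ext a b
  simp only [Matrix.of_apply]
  unfold opw
  refine Finset.sum_congr rfl fun v _ => ?_
  rw [h]
  have h1 : (P.word k a).length = k := (P.word_range k _).1 ⟨a, rfl⟩
  rw [List.length_append, h1, v.2]
  omega

theorem oper_add (P : W.Powers T) (k : ℕ) (t t' : List (Fin (W.rk T)) → K) :
    P.oper k (t + t') = P.oper k t + P.oper k t' := by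
  unfold Weil.PowerData.oper
  ext a b
  simp only [Matrix.of_apply, Matrix.add_apply]
  unfold opw
  rw [← Finset.sum_add_distrib]
  exact Finset.sum_congr rfl fun v _ => by rw [Pi.add_apply, add_mul]

theorem oper_smul (P : W.Powers T) (k : ℕ) (q : ℚ) (t : List (Fin (W.rk T)) → K) :
    P.oper k (q • t) = q • P.oper k t := by
  unfold Weil.PowerData.oper
  ext a b
  simp only [Matrix.of_apply, Matrix.smul_apply]
  unfold opw
  rw [Finset.smul_sum]
  exact Finset.sum_congr rfl fun v _ => by rw [Pi.smul_apply, smul_mul_assoc]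

theorem oper_zero (P : W.Powers T) (k : ℕ) : P.oper k 0 = 0 := by
  have h := oper_smul P k 0 0
  rw [zero_smul, zero_smul] at h
  exact h

end weil

end Pool.Agent.H85.FTM.WPUaux

namespace Pool.Agent.H85.FTM

open WPUaux

theorem pf_WPU (hACT : T_ACT) (hPFA : T_PFA) : T_WPU := by
  intro K _ _ W m T P ε J E _ _ _ _ F G j i hB z b hz k s hs
  obtain ⟨hP1, _, hP3, hP4, _⟩ := hPFA K (Fin (W.rk T)) (J ⊕ E) j (W.par T) (osum F G).o hB.j_par
  have hεj : ε * j = j * Matrix.fromBlocks (0 : Matrix J J K) 0 0 (1 : Matrix E E K) := by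
    rw [← hB.proj, Matrix.mul_assoc, hB.ij, Matrix.mul_one]
  have hadd : ∀ t t' : List (J ⊕ E) → K, pf j (t + t') = pf j t + pf j t' := fun t t' =>
    funext fun w => pf_add j w t t'
  have hsmul : ∀ (q : ℚ) (t : List (J ⊕ E) → K), pf j (q • t) = q • pf j t := by
    intro q t
    funext w
    have h1 : (q • t : List (J ⊕ E) → K) = (q : K) • t := by
      funext v
      exact Rat.smul_def q (t v)
    rw [h1, pf_smul]
    exact (Rat.smul_def q (pf j t w)).symm
  have hsws : ∀ (js : List ℕ) (t : List (J ⊕ E) → K),
      pf j (sws (osum F G).o js t) = sws (W.par T) js (pf j t) := by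
    intro js t
    induction js with
    | nil => rfl
    | cons q js ih =>
      show pf j (sw (osum F G).o q (sws (osum F G).o js t)) = sw (W.par T) q (sws (W.par T) js (pf j t))
      rw [hP1, ih]
  have homk : ∀ (l : ℕ) (w : List (Fin (W.rk T))), w.length = 2 * l →
      pf j (omk (Om F E) l) w = omk ((1 - ε) * P.form⁻¹) l w := by
    intro l
    induction l with
    | zero =>
      intro w hw
      rw [Nat.mul_zero, List.length_eq_zero_iff] at hw
      subst hw
      rfl
    | succ l ih =>
      intro w hw
      show pf j (tp 2 (two (Om F E)) (omk (Om F E) l)) w =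
        tp 2 (two ((1 - ε) * P.form⁻¹)) (omk ((1 - ε) * P.form⁻¹) l) w
      rw [hP3, hP4, hB.omR]
      unfold tp
      rw [ih (w.drop 2) (by rw [List.length_drop, hw]; omega)]
  have hbase : ∀ (n : ℕ) (t : List (J ⊕ E) → K), Bs (osum F G).o z b n t →
      P.FromBase ε b n (pf j t) := by
    intro n t ht
    rcases ht with ht | ⟨hz1, hbn, ht, hsw⟩
    · left
      intro q hq w hw
      rw [atp_pf j ε _ hεj]
      exact pf_congrw j n _ _ (fun v hv => atp_Ty0 n t ht q hq v hv) w hw
    · right
      refine ⟨hz hz1, hbn, ?_, ?_⟩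
      · intro q hq w hw
        rw [atp_pf j ε _ hεj]
        rw [pf_congrw j n _ (if q < b then 0 else t) (fun v hv => by
          rw [atp_Tyb n b t ht q hq v hv]
          split_ifs
          · rfl
          · rfl) w hw]
        split_ifs
        · exact pf_zerow j w
        · rfl
      · intro q hq w hw
        rw [← hP1]
        rw [pf_congrw j n _ (-t) (fun v hv => hsw q hq v hv) w hw]
        exact pf_neg j t w
  unfold Tau at hs
  induction hs using Submodule.span_induction with
  | mem s hs =>
    obtain ⟨l, hl, t0, ht0, hBs, σ, rfl⟩ := hs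
    obtain ⟨js, hjs, hev⟩ := (hACT K (J ⊕ E) (osum F G).o (2 * k)).2.2.2 σ
    refine ⟨sws (osum F G).o js (tp (2 * l) (omk (Om F E) l) t0), hev _, ?_⟩
    refine Submodule.subset_span ⟨l, hl, pf j t0, ht0, hbase _ _ hBs, js, hjs, ?_⟩
    rw [hsws]
    refine oper_congr P k _ _ ?_
    refine sws_congr (W.par T) (2 * k) _ _ ?_ js hjs
    intro w hw
    rw [hP3]
    unfold tp
    rw [homk l (w.take (2 * l)) (by rw [List.length_take, hw]; omega)]
  | zero =>
    refine ⟨0, rfl, ?_⟩
    have h0 : pf j (0 : List (J ⊕ E) → K) = 0 := funext fun w => pf_zerow j w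
    rw [h0, oper_zero]
    exact Submodule.zero_mem _
  | add x y _ _ hx hy =>
    obtain ⟨t, rfl, ht⟩ := hx
    obtain ⟨t', rfl, ht'⟩ := hy
    refine ⟨t + t', rfl, ?_⟩
    rw [hadd, oper_add]
    exact Submodule.add_mem _ ht ht'
  | smul q x _ hx =>
    obtain ⟨t, rfl, ht⟩ := hx
    refine ⟨q • t, rfl, ?_⟩
    rw [hsmul, oper_smul]
    exact Submodule.smul_mem _ q ht

end Pool.Agent.H85.FTM
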