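import Pool.Agent.H64.FTM.Targets2

/-!
# Numerically trivial correspondences: row WNU
-/

set_option autoImplicit false

open Matrix Pool.Agent.H64.CC Pool.Agent.H2.NL Pool.Agent.H2.KM Pool.Agent.H64.EV Pool.Agent.H64.FTM
open Pool.Agent.H64.EK hiding kap

namespace Pool.Agent.H85.FTM

section aux

variable {K : Type} [Field K]

theorem zip_ne {I J : Type} (j : Matrix I J K) (o : I → Bool) (o' : J → Bool)
    (h : ∀ a b, j a b ≠ 0 → o a = o' b) : ∀ (u : List I) (v : List J), u.length = v.length →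
    (List.zipWith (fun a b => j a b) u v).prod ≠ 0 → sgw K o u = sgw K o' v
  | [], [], _, _ => rfl
  | a :: u, b :: v, hl, hp => by
    rw [List.zipWith_cons_cons, List.prod_cons] at hp
    have h1 := left_ne_zero_of_mul hp
    have h2 := right_ne_zero_of_mul hp
    have h3 := zip_ne j o o' h u v (by simpa using hl) h2
    unfold sgw at h3 ⊢
    rw [List.map_cons, List.prod_cons, List.map_cons, List.prod_cons, h a b h1, h3]

theorem str_cyc {A B : Type} [Fintype A] [Fintype B] (s : A → K) (s' : B → K)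
    (X : Matrix A B K) (Y : Matrix B A K) (hY : ∀ b a, Y b a ≠ 0 → s' b = s a) :
    ∑ a, s a * (X * Y) a a = ∑ b, s' b * (Y * X) b b := by
  simp only [Matrix.mul_apply, Finset.mul_sum]
  rw [Finset.sum_comm]
  refine Finset.sum_congr rfl fun b _ => Finset.sum_congr rfl fun a _ => ?_
  by_cases h : Y b a = 0
  · rw [h]; ring
  · rw [hY b a h]; ring

theorem sgw_par [CharZero K] (W : Weil K) {m : ℕ} (T : W.Var m) :
    ∀ w : List (Fin (W.rk T)), (-1 : K) ^ ((w.map (W.deg T)).sum) = sgw K (W.par T) w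
  | [] => by simp [sgw]
  | a :: w => by
    have ih := sgw_par W T w
    have h1 : (-1 : K) ^ (W.deg T a) = sg K (W.par T a) := by
      unfold sg Weil.par
      by_cases h : Odd (W.deg T a)
      · rw [h.neg_one_pow, if_pos (decide_eq_true h)]
      · rw [(Nat.not_odd_iff_even.1 h).neg_one_pow, if_neg]
        rw [decide_eq_false h]; exact Bool.false_ne_true
    rw [List.map_cons, List.sum_cons, pow_add, h1, ih]
    unfold sgw
    rw [List.map_cons, List.prod_cons]

end aux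

theorem pf_WNU (hPRF : T_PRF) (hOTP : T_OTP) (hOPJ : T_OPJ) (hPFB : T_PFB) : T_WNU := by
  intro K _ _ W m T P ε J E _ _ _ _ F G j i hB k f hf
  obtain ⟨σ, hσ⟩ : ∃ σ : Fin (W.rk (P.pow k)) ≃ List.Vector (Fin (W.rk T)) k,
      ∀ a, (σ a).1 = P.word k a := by
    refine ⟨Equiv.ofBijective (fun a => ⟨P.word k a, (P.word_range k _).1 ⟨a, rfl⟩⟩)
      ⟨fun a b h => P.word_inj k (congrArg Subtype.val h), fun v => ?_⟩, fun a => rfl⟩
    obtain ⟨a, ha⟩ := (P.word_range k v.1).2 v.2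
    exact ⟨a, Subtype.ext ha⟩
  have hsub : ∀ t : List (Fin (W.rk T)) → K,
      P.oper k t = (op P.form k t).submatrix σ σ := by
    intro t
    ext a b
    show opw P.form k t (P.word k a) (P.word k b) = opw P.form k t (σ a).1 (σ b).1
    rw [hσ, hσ]
  have hmul : ∀ X Y : Matrix (List.Vector (Fin (W.rk T)) k) (List.Vector (Fin (W.rk T)) k) K,
      X.submatrix σ σ * Y.submatrix σ σ = (X * Y).submatrix σ σ :=
    fun X Y => Matrix.submatrix_mul_equiv X Y σ σ σ
  have hstr : ∀ X : Matrix (List.Vector (Fin (W.rk T)) k) (List.Vector (Fin (W.rk T)) k) K,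
      W.str (X.submatrix σ σ) = ∑ u, sgw K (W.par T) u.1 * X u u := by
    intro X
    have h1 : ∀ a, (-1 : K) ^ W.deg (P.pow k) a = sgw K (W.par T) (σ a).1 := by
      intro a
      rw [P.word_deg, sgw_par, hσ]
    have h2 : W.str (X.submatrix σ σ) = ∑ a, sgw K (W.par T) (σ a).1 * X (σ a) (σ a) := by
      unfold Weil.str
      refine Finset.sum_congr rfl fun a _ => ?_
      rw [h1 a, Matrix.submatrix_apply]
    rw [h2]
    exact Equiv.sum_comp σ (fun u => sgw K (W.par T) u.1 * X u u)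
  obtain ⟨t0, ht0, hft⟩ := (P.graph k f).1 hf
  have hji : ∀ s : List (Fin (W.rk T)) → K, pf j (pf i s) = s := by
    intro s
    rw [(hPFB K _ _ _ j i).1 s, hB.ji,
      (hPFB K (Fin (W.rk T)) (Fin (W.rk T)) (Fin (W.rk T)) 1 1).2.1 s]
  refine ⟨pf i t0, ?_, ?_, ?_⟩
  · show pf j (pf i t0) ∈ P.toPowerData.classes k
    rw [hji]
    exact ht0
  · rw [hji, hft]
    rfl
  intro t' ht' g hg
  obtain ⟨tg, htg, hgt⟩ := (P.graph k g).1 hg
  have hg' : g = P.oper k tg := hgt
  have hf' : f = P.oper k (pf j (pf i t0)) := by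
    rw [hji, hft]
    rfl
  have hx : pf i tg ∈ pull j P.toPowerData.classes k := by
    show pf j (pf i tg) ∈ P.toPowerData.classes k
    rw [hji]
    exact htg
  have hev : ev (2 * k) (pf i tg) ∈ Af (pull j P.toPowerData.classes) k := ⟨_, hx, rfl⟩
  have h0 := ht' _ hev
  obtain ⟨Jj, hJ⟩ : ∃ Jj, Jj = Jm j k := ⟨_, rfl⟩
  obtain ⟨Ii, hI⟩ : ∃ Ii, Ii = Jm i k := ⟨_, rfl⟩
  have hIJ : Ii * Jj = 1 := by
    rw [hI, hJ, (hPFB K _ _ _ i j).2.2.1 k, hB.ij,
      (hPFB K (J ⊕ E) (J ⊕ E) (J ⊕ E) 1 1).2.2.2 k]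
  have hop : ∀ t : List (J ⊕ E) → K,
      op P.form k (pf j t) = Jj * op (osum F G).η k t * Ii := by
    intro t
    rw [hJ, hI]
    exact hOPJ K _ _ P.form (osum F G).η j i hB.form k t
  obtain ⟨A, hA⟩ : ∃ A, A = op (osum F G).η k (pf i tg) := ⟨_, rfl⟩
  obtain ⟨B, hBb⟩ : ∃ B, B = op (osum F G).η k (pf i t0) := ⟨_, rfl⟩
  obtain ⟨C, hC⟩ : ∃ C, C = op (osum F G).η k t' := ⟨_, rfl⟩
  have e1 : W.comp g (f - P.oper k (pf j t')) =
      (Jj * A * Ii * (Jj * B * Ii - Jj * C * Ii)).submatrix σ σ := by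
    have e2 : g = (Jj * A * Ii).submatrix σ σ := by
      rw [hg', ← hji tg, hsub, hop, hA]
    have e3 : f - P.oper k (pf j t') = (Jj * B * Ii - Jj * C * Ii).submatrix σ σ := by
      rw [hf', hsub, hsub, hop, hop, hBb, hC]
      rfl
    rw [e2, e3]
    exact hmul _ _
  have e4 : Jj * A * Ii * (Jj * B * Ii - Jj * C * Ii) = (Jj * (A * B - A * C)) * Ii := by
    have e5 : Jj * B * Ii - Jj * C * Ii = Jj * ((B - C) * Ii) := by
      rw [Matrix.sub_mul, Matrix.mul_sub, Matrix.mul_assoc, Matrix.mul_assoc]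
    rw [e5]
    calc Jj * A * Ii * (Jj * ((B - C) * Ii)) = Jj * A * (Ii * Jj) * ((B - C) * Ii) := by
          simp only [Matrix.mul_assoc]
      _ = (Jj * (A * B - A * C)) * Ii := by
          rw [hIJ, Matrix.mul_one, ← Matrix.mul_sub]
          simp only [Matrix.mul_assoc]
  rw [e1, hstr, e4, str_cyc (fun u : List.Vector (Fin (W.rk T)) k => sgw K (W.par T) u.1)
      (fun u : List.Vector (J ⊕ E) k => sgw K (osum F G).o u.1) _ Ii ?_]
  · have e6 : Ii * (Jj * (A * B - A * C)) = A * B - A * C := by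
      rw [← Matrix.mul_assoc, hIJ, Matrix.one_mul]
    rw [e6]
    simp only [Matrix.sub_apply, mul_sub, Finset.sum_sub_distrib]
    rw [hA, hBb, hC, hOTP K _ (osum F G) k (pf i tg) (pf i t0), hOTP K _ (osum F G) k (pf i tg) t',
      (hPRF K _ (osum F G) (2 * k)).1, (hPRF K _ (osum F G) (2 * k)).1,
      (hPRF K _ (osum F G) (2 * k)).2.2.2, (hPRF K _ (osum F G) (2 * k)).2.2.2]
    rw [← h0]
    unfold pr rvf
    rw [← Finset.sum_sub_distrib]
    refine Finset.sum_congr rfl fun w _ => ?_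
    simp only [Pi.sub_apply]
    ring
  · intro b a hba
    rw [hI] at hba
    exact zip_ne i (osum F G).o (W.par T) hB.i_par b.1 a.1 (b.2.trans a.2.symm) hba

end Pool.Agent.H85.FTM
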